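import Pool.Agent.H59.Loc.Univ

/-!
Which degrees contain a member of a thin `Π⁰₁` class: exactly those that contain a member of a
`Π⁰₁` class relative to `0'` all of whose members are generic in one `Π⁰₁` class, and this class
can be fixed in advance.
-/

set_option autoImplicit false

namespace Pool.Agent.Results.MP_6377c3_lc.AllDegrees

open Pool.Agent.H77.Thin Pool.Agent.H59.Loc

theorem result : ∃ U : Set (ℕ → Bool), IsPi01 U ∧ ∀ x : ℕ → Bool, List.TFAE [
    ∃ P, IsThin P ∧ ∃ y ∈ P, TuringEquivalent (chr y) (chr x),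
    ∃ P C, IsPi01 P ∧ IsPi01Jump C ∧ (∀ z ∈ C, GenericIn P z) ∧
      ∃ y ∈ C, TuringEquivalent (chr y) (chr x),
    ∃ C, IsPi01Jump C ∧ (∀ z ∈ C, GenericIn U z) ∧
      ∃ y ∈ C, TuringEquivalent (chr y) (chr x)] :=
  univ_main

end Pool.Agent.Results.MP_6377c3_lc.AllDegrees
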