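import Mathlib
import Pool.Agent.H77.Thin.Defs
import Pool.Agent.H59.Hif.DefsHif
import Pool.Agent.H59.Hif.Cat

/-!
# Below the hyperimmune-free members of thin `Π⁰₁` classes
-/

set_option autoImplicit false

namespace Pool.Agent.Results.MP_6377c3_lc.HifCones

open Pool.Agent.H77.Thin Pool.Agent.H59.Hif

/-- Let `P` be a thin `Π⁰₁` class. Comeager many members `y` of `P` are hyperimmune-free, and for
each hyperimmune-free `y` in `P` every point computable from `y` is a member of a thin `Π⁰₁` class
and no function computable from `y` is diagonally noncomputable. -/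
theorem result (P : Set (ℕ → Bool)) (hP : IsThin P) :
    (∀ᶠ y : P in residual P, HyperimmuneFree y.1) ∧
    ∀ y ∈ P, HyperimmuneFree y →
      (∀ x : ℕ → Bool, TuringReducible (chr x) (chr y) → ∃ Q, IsThin Q ∧ x ∈ Q) ∧
      (∀ f : ℕ → ℕ, TuringReducible (fun n => Part.some (f n)) (chr y) → ¬ DNC f) :=
  ⟨hif_residual hP, fun _ hy hyp => hif_props hP hy hyp⟩

end Pool.Agent.Results.MP_6377c3_lc.HifCones
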