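import Mathlib
import Pool.Agent.H77.Thin.Defs
import Pool.Agent.H59.Hif.DefsHif
import Pool.Agent.H59.Hif.DefsMin
import Pool.Agent.H59.Inc.MinCat

/-!
# A thin `Π⁰₁` class with pairwise incomparable members, the hyperimmune-free ones being minimal
-/

set_option autoImplicit false

namespace Pool.Agent.Results.MP_6377c3_lc.MinimalMembers

open Pool.Agent.H77.Thin Pool.Agent.H59.Hif

/-- There is a nonempty thin `Π⁰₁` class `P` without computable members such that no member of
`P` computes another member of `P`, and every hyperimmune-free member of `P` has minimal Turing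
degree. Comeager many members of `P`, and uncountably many, have minimal degree. -/
theorem result : ∃ P : Set (ℕ → Bool), IsThin P ∧ P.Nonempty ∧ (∀ y ∈ P, ¬ Computable y) ∧
    (∀ y ∈ P, ∀ z ∈ P, y ≠ z → ¬ TuringReducible (chr z) (chr y)) ∧
    (∀ y ∈ P, HyperimmuneFree y → MinimalDegree y) ∧
    (∀ᶠ y : P in residual P, MinimalDegree y.1) ∧
    ¬ {y | y ∈ P ∧ MinimalDegree y}.Countable :=
  ⟨paths Pool.Agent.H59.Inc.TT, Pool.Agent.H59.Inc.thin_TT, Pool.Agent.H59.Inc.nonempty_TT,
    fun _ hy => Pool.Agent.H59.Inc.noncomputable_TT hy,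
    fun _ hy _ hz hne => Pool.Agent.H59.Inc.incomparable_TT hy hz hne,
    fun _ hy hyp => Pool.Agent.H59.Inc.minimal_TT hy hyp,
    Pool.Agent.H59.Inc.minimal_residual, Pool.Agent.H59.Inc.not_countable_minimal⟩

end Pool.Agent.Results.MP_6377c3_lc.MinimalMembers
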