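import Mathlib
import Pool.Agent.H77.Thin.Defs
import Pool.Agent.H77.Thin.Final

/-!
# The degrees of members of thin `Π⁰₁` classes are negligible for measure and for category
-/

set_option autoImplicit false

namespace Pool.Agent.Results.MP_6377c3_lc.Negligible

open Pool.Agent.H77.Thin

/-- Let `y` be a member of a thin `Π⁰₁` class. No function computable from `y` is diagonally
noncomputable relative to `0'`; no point computable from `y` is `2`-random or weakly `3`-generic;
no point Turing equivalent to `y` is weakly `2`-random. The set of all points computable from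
members of thin classes is covered by countably many closed sets `K j`, each of which is, for each
computable `m`, covered by finitely many cylinders `[σ 0], ..., [σ (N - 1)]` with `|σ i| = m i`;
that set is null and meagre. -/
theorem result :
    (∀ P : Set (ℕ → Bool), IsThin P → ∀ y ∈ P,
      (∀ f : ℕ → ℕ, TuringReducible (fun n => Part.some (f n)) (chr y) → ¬ JumpDNC f) ∧
      (∀ x : ℕ → Bool, TuringReducible (chr x) (chr y) →
        ¬ TwoRandom x ∧ ¬ WeaklyThreeGeneric x) ∧
      (∀ x : ℕ → Bool, TuringEquivalent (chr x) (chr y) → ¬ WeaklyTwoRandom x)) ∧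
    (∃ K : ℕ → Set (ℕ → Bool), BelowThin ⊆ ⋃ j, K j ∧ ∀ j, IsClosed (K j) ∧
      ∀ m : ℕ → ℕ, Computable m → ∃ (N : ℕ) (σ : ℕ → List Bool),
        (∀ i, (σ i).length = m i) ∧ ∀ x ∈ K j, ∃ i < N, seg x (m i) = σ i) ∧
    coin BelowThin = 0 ∧ IsMeagre BelowThin :=
  ⟨fun _ hP _ hy => member_props hP hy, small, null_all, meagre_all⟩

end Pool.Agent.Results.MP_6377c3_lc.Negligible
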